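import Pool.Agent.H31.KDet

set_option autoImplicit false

open Pool.Agent.H31 Pool.Agent.H31.KCov

theorem Pool.Agent.Results.MP_367a9a_gt.Q1.result :
    ∃ (X : Type) (_ : TopologicalSpace X), T35Space X ∧
      (∀ σ : List (Set X) → Set (Set X),
        (∀ (U : ℕ → Set X) (n : ℕ), (∀ k < n, U k ∈ σ ((List.range k).map U)) →
          K (σ ((List.range n).map U))) →
        ∃ U : ℕ → Set X, (∀ n, U n ∈ σ ((List.range n).map U)) ∧ K (Set.range U)) ∧
      (∀ τ : List (Set (Set X)) → Set X,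
        (∀ (l : List (Set (Set X))) (𝒰 : Set (Set X)), (∀ 𝒱 ∈ l, K 𝒱) → K 𝒰 →
          τ (l ++ [𝒰]) ∈ 𝒰) →
        ∃ 𝒰 : ℕ → Set (Set X), (∀ n, K (𝒰 n)) ∧
          ¬ K (Set.range fun n => τ ((List.range (n + 1)).map 𝒰))) :=
  ⟨Suit.G, inferInstance, inferInstance,
    KDet.reach (R := fun U 𝒰 => U ∈ 𝒰) (Win := fun U => K (Set.range U)) KDet.one_total, KDet.two⟩
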