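import Pool.Agent.H31.KDet

set_option autoImplicit false

open Pool.Agent.H31 Pool.Agent.H31.KCov

theorem Pool.Agent.Results.MP_367a9a_gt.Q2.result :
    ∃ (X : Type) (_ : TopologicalSpace X), T35Space X ∧
      (∀ σ : List (Set (Set X)) → Set (Set X),
        (∀ (ℱ : ℕ → Set (Set X)) (n : ℕ),
          (∀ k < n, (ℱ k).Finite ∧ ℱ k ⊆ σ ((List.range k).map ℱ)) →
          K (σ ((List.range n).map ℱ))) →
        ∃ ℱ : ℕ → Set (Set X), (∀ n, (ℱ n).Finite ∧ ℱ n ⊆ σ ((List.range n).map ℱ)) ∧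
          K (⋃ n, ℱ n)) ∧
      (∀ τ : List (Set (Set X)) → Set (Set X),
        (∀ (l : List (Set (Set X))) (𝒰 : Set (Set X)), (∀ 𝒱 ∈ l, K 𝒱) → K 𝒰 →
          (τ (l ++ [𝒰])).Finite ∧ τ (l ++ [𝒰]) ⊆ 𝒰) →
        ∃ 𝒰 : ℕ → Set (Set X), (∀ n, K (𝒰 n)) ∧
          ¬ K (⋃ n, τ ((List.range (n + 1)).map 𝒰))) :=
  ⟨Suit.G, inferInstance, inferInstance,
    KDet.reach (R := fun ℱ 𝒰 => ℱ.Finite ∧ ℱ ⊆ 𝒰) (Win := fun ℱ => K (⋃ n, ℱ n))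
      KDet.onefin_total, KDet.twofin⟩
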